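import Pool.Agent.H93S.Pad4
import Pool.Agent.V11235.SL.Res
import Pool.Agent.V11235.SL.Uni

/-!
# The pro-`ℓ` section conjecture for rotation twists of uniformly ramified coverings of the line

Let `k` be a finite extension of `ℚ_p`, or any complete discretely valued field of characteristic
zero with finite residue field, let `A` be its valuation ring, and let `ℓ` be a prime number which is
invertible in `A`.  Let `C → ℙ¹` be a covering over `k`, Galois or not, such that the monodromy group of
`C → ℙ¹` over `k̄` is an `ℓ`-group, and such that the ramification indices of all points of `C` above the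
branch points are equal to `ℓ` (a uniformly ramified covering).  Suppose that there are at least three
branch points, that `0` and `∞` are both branch points or both not, and that the set `E` of the other
branch points has the following properties:

* `ζ e ∈ E` for all `e ∈ E` and all `ζ ∈ k̄` with `ζ^ℓ = 1`; this says that `E` is the set of the zeros
  of a polynomial `g(x^ℓ)`, `g ∈ k[X]`;
* the cross-ratios of any four of the points in `E ∪ {0, ∞}` are units, so that these points stay distinct
  in a suitable reduction of the line;
* the elements of `E` have, because of the last condition, the same valuation, a rational number, and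
  its denominator is divisible by `ℓ`.

Then the inertia group of `k` permutes the points of `E` by rotations `e ↦ ζ e` modulo higher terms, and
some of its elements have no fixed point in `E`.  For instance, `E` can be the set of the zeros of
`g(a x^m)`, where `g` has coefficients in `A`, its leading coefficient is a unit, `g(x^m)` is separable
modulo the maximal ideal, `ℓ` divides `m`, and `ℓ` divides the denominator of `v(a)/m`; the binomials
`x^m - a` are the simplest examples.

Let `F` be the function field of `C`, and let `M` be the maximal pro-`ℓ` extension of `k̄ F` that is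
unramified over `C`, so that `Gal(M/k̄F)` is the geometric pro-`ℓ` fundamental group of `C`.  Let
`Y → C` be a finite étale covering, `Y` geometrically connected, with function field `L ⊆ M`; this
means that the Galois group of the Galois closure of `Y → C` over `k̄` is an `ℓ`-group.  Then `Gal(M/L)`
is the geometrically pro-`ℓ` fundamental group of `Y`.

**Theorem.**  Every section `s` of `Gal(M/L) → G_k` is the section of exactly one point of `Y` above
`x = 0` or `x = ∞`, and this is a `k`-rational point of `Y`: there is exactly one prolongation `W` to `M`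
of the valuations of `0` and `∞` such that the image of `s` is contained in the decomposition group
of `W`, and the residue field of `W ∩ L` is `k`.  Moreover `s` is the only section with its image in the
decomposition group of `W`, and there is no such `W` above a point of `E`.

In particular, if `Y` has no rational point above `0` or `∞`, then it has no section, and no rational
point.  Examples of such coverings are the curves `d y^ℓ = x^i g(x^ℓ)` with `i` and `i + ℓ deg g`
prime to `ℓ`, the coverings with several equations `c_i y_i^ℓ = g_i(x^ℓ)`, `g = ∏ g_i`, the cyclic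
coverings of degree `ℓ` over a field without `ℓ`-th roots of unity, and non-abelian `ℓ`-coverings.  The
results `TwistsByRotations` and `CoveringsOfTwistsByRotations` which the library started with treat
the curves `d y^ℓ = g(a x^m)`, `m = ℓ^j`, which are unramified above `0` and `∞`.

Here the theorem is stated for an arbitrary extension `N ⊇ M` of `F` in an algebraic closure `Ω`
instead of `M`, and for all extensions `L` of `F` in `M`, also infinite ones.

Proof (library `Pool.Agent.H93S`).  (1) Choose `e₀ ∈ E` and the coordinate `z = x / e₀`, and let `k'` be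
the field generated by the `e^ℓ`, `e ∈ E`.  The elements `e / e₀` are units which are distinct modulo the
maximal ideal.  Let `τ` be a generator of the tame inertia group; then `τ^n(e)` is congruent to a
root of unity times `e`, hence equal to it, where `ℓ n` is the denominator of the valuation or a
multiple of it.  So `τ^n` is in the inertia group of `k'`, and it moves `e₀`: the radical `e₀` of
`e₀^ℓ ∈ k'` generates a ramified extension of `k'`.  (2) If `0` and `∞` are not branch points, then the
field `M` is the maximal unramified pro-`ℓ` extension of `k̄(z, Y)`, `Y^ℓ = ∏ (z - e / e₀)`, because both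
coverings are uniformly ramified of index `ℓ` above the same points, and by Hilbert's theorem 90 and
Kummer theory a section `s` gives `δ ∈ k̄` such that `Y/δ` is fixed by the image of `s`.  The local
theorem for twists of superelliptic curves by rotations of order `ℓ` applies to the action of `G_(k')`
on `M` defined by `s`.  (3) If `0` and `∞` are branch points, then `M` is the maximal unramified pro-`ℓ`
extension of `k̄(T, Y)`, where `T^ℓ = z` and `Y^ℓ = ∏ (T^ℓ - e / e₀)`.  A section `s` gives `δ ∈ k̄` such
that `T/δ` is fixed by the image of `s`, and this is a twist by rotations of order `ℓ²`.  (4) The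
valuation ring `W` obtained over `k'` is unique, hence fixed by the image of `s`.  (5) The statements for
the étale coverings and the uniqueness of the section are proved as in `MP_c385f6_ag.EtaleCoverings`
(library `Pool.Agent.V11235.SL`).
-/

set_option autoImplicit false

open Polynomial

namespace Pool.Agent.Results.MP_c385f6_ag.RotationsOfUniformCovers

section definitions

variable (ℓ : ℕ) (k F Ω : Type) [Field k] [Field F] [Field Ω] [Algebra k F] [Algebra F Ω]
  [Algebra k Ω]

/-- `k̄ F`, the compositum of `F` and of the algebraic closure of `k` in `Ω`. -/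
noncomputable def geomField : IntermediateField F Ω :=
  IntermediateField.adjoin F (algebraicClosure k Ω : Set Ω)

/-- The algebraic extension `L` of `K` in `Ω` is unramified at all valuation rings of `Ω` that
contain `k`: every nonzero element of `L` has the same valuation as an element of `K`.  (If `K` is
a function field of one variable over the algebraic closure of `k` and `k` has characteristic zero,
then this says that `L/K` is unramified over all points of the smooth projective curve.) -/
def Unramified {k K Ω : Type} [Field k] [Field K] [Field Ω] [Algebra k Ω] [Algebra K Ω]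
    (L : IntermediateField K Ω) : Prop :=
  ∀ W : ValuationSubring Ω, (∀ c : k, algebraMap k Ω c ∈ W) → ∀ z ∈ L, z ≠ 0 →
    ∃ t : K, t ≠ 0 ∧ z / algebraMap K Ω t ∈ W ∧ (z / algebraMap K Ω t)⁻¹ ∈ W

/-- `L/K` is a finite Galois extension whose degree is a power of `ℓ`. -/
def FiniteProEll (ℓ : ℕ) {K Ω : Type} [Field K] [Field Ω] [Algebra K Ω]
    (L : IntermediateField K Ω) : Prop :=
  FiniteDimensional K L ∧ IsGalois K L ∧ ∃ m : ℕ, Module.finrank K L = ℓ ^ m

/-- The maximal unramified pro-`ℓ` extension of `K` in `Ω`: the compositum of the finite Galois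
extensions of `K` whose degree is a power of `ℓ` and which are unramified. -/
noncomputable def maxProEll (ℓ : ℕ) (k K Ω : Type) [Field k] [Field K] [Field Ω] [Algebra k Ω]
    [Algebra K Ω] : IntermediateField K Ω :=
  ⨆ L : {L : IntermediateField K Ω // FiniteProEll ℓ L ∧ Unramified (k := k) L}, L.1

/-- `M`, the maximal unramified pro-`ℓ` extension of `k̄ F` in `Ω`, as an extension of `F`. -/
noncomputable def proEllField : IntermediateField F Ω :=
  (maxProEll ℓ k (geomField k F Ω) Ω).restrictScalars F

/-- The map `τ : M → M` acts as `σ : K → K` on the elements that the fields `K` and `M` have in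
common when they are regarded as subfields of `Ω` through `i` and `j`. -/
def ActsAs {K M Ω : Type} [Field K] [Field M] [Field Ω] (i : K →+* Ω) (j : M →+* Ω) (σ : K → K)
    (τ : M → M) : Prop :=
  ∀ c z, j z = i c → j (τ z) = i (σ c)

/-- Let `k ⊆ K ⊆ Ω` and `F ⊆ N ⊆ Ω` be fields.  A splitting of `Gal(N/F) → Gal(K/k)`: a continuous
homomorphism `s` from `Gal(K/k)` to `Gal(N/F)` such that `s(σ)` acts as `σ` on the elements of
`K ∩ N`. -/
structure Splitting (K N : Type) [Field K] [Field N] [Algebra k K] [Algebra F N] [Algebra K Ω]
    [Algebra N Ω] where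
  /-- the homomorphism `Gal(K/k) → Gal(N/F)` -/
  toHom : (K ≃ₐ[k] K) →* (N ≃ₐ[F] N)
  cont : Continuous toHom
  compat : ∀ σ : K ≃ₐ[k] K, ActsAs (algebraMap K Ω) (algebraMap N Ω) σ (toHom σ)

end definitions

section places

/-- The residue field of `W ∩ F` is `k`. -/
def RationalResidue (k F : Type) {N : Type} [Field k] [Field F] [Field N] [Algebra k F]
    [Algebra F N] (W : ValuationSubring N) : Prop :=
  ∀ z : F, algebraMap F N z ∈ W → ∃ c : k, algebraMap F N (z - algebraMap k F c) ∈ W.nonunits

/-- The image of `s : Gal(K/k) → Gal(N/F)` in `Gal(M/F)`, where `M ⊆ N ⊆ Ω`, is contained in the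
decomposition group of the valuation ring `W ∩ M`. -/
def InDecomposition {k F Ω K N : Type} [Field k] [Field F] [Field Ω] [Field K] [Field N]
    [Algebra k K] [Algebra F N] [Algebra F Ω] [Algebra K Ω] [Algebra N Ω]
    (s : Splitting k F Ω K N) (M : IntermediateField F Ω) (W : ValuationSubring N) : Prop :=
  ∀ σ, ∀ z : N, algebraMap N Ω z ∈ M → (s.toHom σ z ∈ W ↔ z ∈ W)

/-- The splittings `s` and `s'` of `Gal(N/F) → Gal(K/k)` agree on `M`. -/
def AgreeOn {k F Ω K N : Type} [Field k] [Field F] [Field Ω] [Field K] [Field N]
    [Algebra k K] [Algebra F N] [Algebra F Ω] [Algebra K Ω] [Algebra N Ω]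
    (M : IntermediateField F Ω) (s s' : Splitting k F Ω K N) : Prop :=
  ∀ σ, ∀ z : N, algebraMap N Ω z ∈ M → s.toHom σ z = s'.toHom σ z

/-- The valuation ring `W` of `N` contains `k` and is above a zero of the function `h ∈ F` or, if `Inf`
holds, above a pole of the function `x ∈ F`. -/
def Above (k : Type) {F N : Type} [Field k] [Field F] [Field N] [Algebra k F] [Algebra F N]
    (h x : F) (Inf : Prop) (W : ValuationSubring N) : Prop :=
  (∀ c : k, algebraMap F N (algebraMap k F c) ∈ W) ∧
    (algebraMap F N h ∈ W.nonunits ∨ (Inf ∧ algebraMap F N x⁻¹ ∈ W.nonunits))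

/-- Let the splitting `s` of `Gal(N/F) → Gal(K/k)` have its image in `Gal(N/L)`, `L ⊆ M ⊆ N`.  It
induces on `M` the section of exactly one point above `x = 0` or `x = ∞`, and this is a `k`-rational
point of the curve with function field `L`: there is a valuation ring `W` of `N` above a zero or a pole
of `x` such that the residue fields of `W ∩ F` and of `W ∩ L` are `k`, and such that the image of `s` in
`Gal(M/L)` is contained in the decomposition group of `W ∩ M`; all splittings with the last property
induce the same section on `M`; and `W ∩ M` is the only such valuation ring above a zero of `x`, a pole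
of `x` or a zero of `h`. -/
def FromOneRationalPoint {k F Ω K N : Type} [Field k] [Field F] [Field Ω] [Field K] [Field N]
    [Algebra k F] [Algebra k K] [Algebra F N] [Algebra F Ω] [Algebra K Ω] [Algebra N Ω]
    (h x : F) (s : Splitting k F Ω K N) (M L : IntermediateField F Ω) : Prop :=
  ∃ W : ValuationSubring N, Above k x x True W ∧ RationalResidue k F W ∧
    (∀ z : N, algebraMap N Ω z ∈ L → z ∈ W →
      ∃ c : k, z - algebraMap F N (algebraMap k F c) ∈ W.nonunits) ∧
    InDecomposition s M W ∧
    (∀ s' : Splitting k F Ω K N, InDecomposition s' M W → AgreeOn M s s') ∧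
    ∀ W' : ValuationSubring N, Above k (x * h) x True W' → InDecomposition s M W' →
      ∀ z : N, algebraMap N Ω z ∈ M → (z ∈ W' ↔ z ∈ W)

/-- Let `L ⊆ M ⊆ N`.  Every section of `Gal(N/L) → Gal(K/k)`, that is, every splitting `s` of
`Gal(N/F) → Gal(K/k)` all of whose values are the identity on `L`, induces on `M` the section of exactly
one point above `x = 0` or `x = ∞`, and this is a `k`-rational point of the curve with function field `L`
(`FromOneRationalPoint`). -/
def AllFromOneRationalPoint {k F Ω : Type} (K N : Type) [Field k] [Field F] [Field Ω] [Field K]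
    [Field N] [Algebra k F] [Algebra k K] [Algebra F N] [Algebra F Ω] [Algebra K Ω] [Algebra N Ω]
    (h x : F) (M L : IntermediateField F Ω) : Prop :=
  ∀ s : Splitting k F Ω K N, (∀ σ, ∀ z : N, algebraMap N Ω z ∈ L → s.toHom σ z = z) →
    FromOneRationalPoint h x s M L

end places

section curves

variable (ℓ : ℕ) (k F Ω : Type) [Field k] [Field F] [Field Ω] [Algebra k F] [Algebra F Ω]
  [Algebra k Ω]

/-- The elements of `Ωˣ` that have the same valuation as an element of the field `K`: the product of
`Kˣ` and of the group of units of `W`. -/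
noncomputable def valueGroup {Ω : Type} [Field Ω] (W : ValuationSubring Ω) (K : Subfield Ω) :
    Subgroup Ωˣ :=
  (Units.map (K.subtype : K →* Ω)).range ⊔ W.unitGroup

/-- The ramification index of `W ∩ L` over `W ∩ K`, for subfields `K ⊆ L` of `Ω`: the index of the
value group of `K` in the value group of `L`. -/
noncomputable def ramificationIndex {Ω : Type} [Field Ω] (W : ValuationSubring Ω)
    (K L : Subfield Ω) : ℕ :=
  (valueGroup W K).relIndex (valueGroup W L)

/-- `k̄(x)`, where `k̄` is the algebraic closure of `k` in `Ω`. -/
noncomputable def lineField (x : F) : IntermediateField (algebraicClosure k Ω) Ω :=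
  IntermediateField.adjoin (algebraicClosure k Ω) {algebraMap F Ω x}

/-- The ramification index of `W` in the extension `k̄ F / k̄(x)`. -/
noncomputable def ramification (x : F) (W : ValuationSubring Ω) : ℕ :=
  ramificationIndex W (lineField k F Ω x).toSubfield (geomField k F Ω).toSubfield

/-- The image of `F` in `Ω` is contained in a finite Galois extension of `R` whose degree is a power of
`ℓ`. -/
def InProEllExtension (ℓ : ℕ) (R F Ω : Type) [Field R] [Field F] [Field Ω] [Algebra R Ω]
    [Algebra F Ω] : Prop :=
  ∃ E : IntermediateField R Ω, FiniteProEll ℓ E ∧ ∀ z : F, algebraMap F Ω z ∈ E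

/-- The monodromy group over `k̄` is an `ℓ`-group: the extension `k̄ F / k̄(x)` is contained in a finite
Galois extension whose degree is a power of `ℓ`. -/
def ProEllMonodromy (x : F) : Prop :=
  InProEllExtension ℓ (lineField k F Ω x) F Ω

/-- The ramification index is `ℓ` at every `W` above a branch point (a zero of `f(x)` or, if `Inf`
holds, a pole of `x`), and `1` at every other valuation ring `W ≠ Ω` which contains `k`. -/
def UniformlyRamified (f : k[X]) (Inf : Prop) (x : F) : Prop :=
  ∀ W : ValuationSubring Ω, W ≠ ⊤ →
    (Above k (aeval x f) x Inf W → ramification k F Ω x W = ℓ) ∧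
    ((∀ c : k, algebraMap k Ω c ∈ W) → ¬ Above k (aeval x f) x Inf W →
      ramification k F Ω x W = 1)

/-- `F` is the function field of a covering `C` of the line with coordinate `x` such that the monodromy
group over `k̄` is an `ℓ`-group, and such that the ramification index of every point of the curve over
`k̄` is `ℓ` above the branch points and `1` elsewhere.  The branch points are the zeros of the separable
polynomial `f` and, if `Inf` holds, the point `x = ∞`. -/
structure UniformCover (f : k[X]) (Inf : Prop) (x : F) : Prop where
  transcendental : Transcendental k x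
  finite : FiniteDimensional (IntermediateField.adjoin k {x}) F
  separable : f.Separable
  monodromy : ProEllMonodromy ℓ k F Ω x
  ramified : UniformlyRamified ℓ k F Ω f Inf x

open Classical in
/-- The number of the branch points. -/
noncomputable def branchNumber {k : Type} [Field k] (f : k[X]) (Inf : Prop) : ℕ :=
  f.natDegree + if Inf then 1 else 0

/-- The element `c` of the algebraic extension `K` of `k` is integral over `A`. -/
def IntegralOver (A k : Type) {K : Type} [CommRing A] [Field k] [Field K] [Algebra A k]
    [Algebra k K] (c : K) : Prop :=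
  ((algebraMap k K).comp (algebraMap A k)).IsIntegralElem c

/-- The quotients `a / b` and `b / (a - b)` of any two different zeros `a`, `b` of `f` in `K` are
integral over `A`.  Then `a / b` and `(a - b) / b` are units, and so are the cross-ratios of any four of
the points `0`, `∞` and the zeros of `f`: these points stay distinct in a suitable reduction of the
line. -/
def UnitRatios (A : Type) {k : Type} (K : Type) [CommRing A] [Field k] [Field K] [Algebra A k]
    [Algebra k K] (f : k[X]) : Prop :=
  ∀ a ∈ f.rootSet K, ∀ b ∈ f.rootSet K, a ≠ b →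
    IntegralOver A k (a / b) ∧ IntegralOver A k (b / (a - b))

/-- The valuation of all zeros of `f` in `K`, where a prime element `ϖ` of `A` has the valuation `1`, is
the same rational number, and its denominator is divisible by `ℓ`: it is `α / (ℓ n)` with an integer
`α` which is not divisible by `ℓ`, that is, `e^(ℓ n) / ϖ^α` is a unit for every zero `e`. -/
def FractionalValuation (A : Type) {k : Type} (K : Type) [CommRing A] [Field k] [Field K]
    [Algebra A k] [Algebra k K] (ℓ : ℕ) (f : k[X]) : Prop :=
  ∃ (ϖ : A) (n : ℕ) (α : ℤ), Irreducible ϖ ∧ ¬ (ℓ : ℤ) ∣ α ∧ ∀ e ∈ f.rootSet K,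
    IntegralOver A k (e ^ (ℓ * n) / algebraMap k K (algebraMap A k ϖ) ^ α) ∧
    IntegralOver A k (e ^ (ℓ * n) / algebraMap k K (algebraMap A k ϖ) ^ α)⁻¹

open Classical in
/-- The polynomial whose zeros are the branch points in `k̄`: `f` or, if `Ends` holds, `x f`. -/
noncomputable def branchPolynomial {k : Type} [Field k] (f : k[X]) (Ends : Prop) : k[X] :=
  if Ends then X * f else f

/-- Let `F` be the function field of `C`, let `Ω` be an algebraic closure of `F` and
`M = proEllField ℓ k F Ω`.  Let `L ⊆ M` be any extension of `F`; if it is finite over `F` and `k` is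
algebraically closed in `L`, it is the function field of a finite étale covering `Y` of `C`,
geometrically connected, and `Gal(M/L)` is the geometrically pro-`ℓ` fundamental group of `Y`.  For all
extensions `N ⊇ M` of `F` in `Ω`, for instance `N = M` or the field of `π₁(Y)`, every section of
`Gal(N/L) → G_k`, that is, every continuous homomorphism from `G_k` to the group of automorphisms of
`N` over `F` whose values are the identity on `L` and act as they should on the algebraic closure of
`k`, induces on `M` the section of exactly one point of `Y` above `x = 0` or `x = ∞`, and this is a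
`k`-rational point of `Y`; it is also the only one above `x = 0`, `x = ∞` or `f(x) = 0`; the section on
`M` is determined by `W`. -/
def SectionsOfCoverings (f : k[X]) (x : F) : Prop :=
  ∀ L N : IntermediateField F Ω, L ≤ proEllField ℓ k F Ω → proEllField ℓ k F Ω ≤ N →
    AllFromOneRationalPoint (k := k) (algebraicClosure k Ω) N (aeval x f) x
      (proEllField ℓ k F Ω) L

end curves

lemma iSup_congr_prop {α : Type} [CompleteLattice α] {P Q : α → Prop} (h : ∀ L, P L ↔ Q L) :
    (⨆ L : {L // P L}, L.1) = ⨆ L : {L // Q L}, L.1 := by
  have h1 : P = Q := funext fun L => propext (h L)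
  subst h1
  rfl

lemma proEll_eq (ℓ : ℕ) (k F Ω : Type) [Field k] [Field F] [Field Ω] [Algebra k F] [Algebra F Ω]
    [Algebra k Ω] : proEllField ℓ k F Ω = Pool.Agent.Y157.PS.geomPro ℓ k F Ω := by
  unfold proEllField Pool.Agent.Y157.PS.geomPro maxProEll Pool.Agent.Y157.PS.maxPro
  congr 1
  refine iSup_congr_prop fun L => ?_
  constructor
  · rintro ⟨⟨h1, h2, h3⟩, h4⟩
    refine ⟨⟨h1, h2, h3⟩, fun W hW z hz hz0 => ?_⟩
    obtain ⟨t, ht, h5, h6⟩ := h4 W hW z hz hz0
    exact ⟨t, ht, div_ne_zero hz0 ((_root_.map_ne_zero _).2 ht), h5, h6⟩
  · rintro ⟨⟨h1, h2, h3⟩, h4⟩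
    refine ⟨⟨h1, h2, h3⟩, fun W hW z hz hz0 => ?_⟩
    obtain ⟨t, ht, -, h5, h6⟩ := h4 W hW z hz hz0
    exact ⟨t, ht, h5, h6⟩

section proof

variable {ℓ : ℕ} {k F Ω : Type} [Field k] [CharZero k] [Field F] [Field Ω] [Algebra k F]
  [Algebra F Ω] [Algebra k Ω] [IsScalarTower k F Ω] [IsAlgClosure F Ω]

omit [CharZero k] [Algebra k F] [IsScalarTower k F Ω] [IsAlgClosure F Ω] in
lemma mem_proEll (c : algebraicClosure k Ω) : (c : Ω) ∈ proEllField ℓ k F Ω := by
  have h1 : (c : Ω) ∈ geomField k F Ω := IntermediateField.subset_adjoin _ _ c.2
  exact (maxProEll ℓ k (geomField k F Ω) Ω).algebraMap_mem ⟨(c : Ω), h1⟩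

/-- the algebraic closure of `k` inside `N` -/
def iota (N : IntermediateField F Ω) (hN : proEllField ℓ k F Ω ≤ N) : algebraicClosure k Ω →+* N where
  toFun c := ⟨(c : Ω), hN (mem_proEll c)⟩
  map_one' := Subtype.ext rfl
  map_mul' := fun _ _ => Subtype.ext rfl
  map_zero' := Subtype.ext rfl
  map_add' := fun _ _ => Subtype.ext rfl

omit [CharZero k] in
lemma iota_mem (N : IntermediateField F Ω) (hN : proEllField ℓ k F Ω ≤ N) (W : ValuationSubring N)
    (h1 : ∀ c : k, algebraMap F N (algebraMap k F c) ∈ W) (c : algebraicClosure k Ω) :
    iota N hN c ∈ W := by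
  have hcl : IsAlgClosed Ω := IsAlgClosure.isAlgClosed F
  have hι : ∀ c : k, iota N hN (algebraMap k (algebraicClosure k Ω) c) =
      algebraMap F N (algebraMap k F c) := by
    intro c
    apply Subtype.ext
    change algebraMap k Ω c = algebraMap F Ω (algebraMap k F c)
    exact IsScalarTower.algebraMap_apply k F Ω c
  have hacl : IsAlgClosure k (algebraicClosure k Ω) := inferInstance
  have hc : IsIntegral k c := (hacl.isAlgebraic.isAlgebraic c).isIntegral
  obtain ⟨p, hp, hpc⟩ := hc
  let g : k →+* W :=
    { toFun := fun a => ⟨algebraMap F N (algebraMap k F a), h1 a⟩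
      map_one' := Subtype.ext (by simp)
      map_mul' := fun a b => Subtype.ext (by simp)
      map_zero' := Subtype.ext (by simp)
      map_add' := fun a b => Subtype.ext (by simp) }
  have hint : IsIntegral W (iota N hN c) := by
    refine ⟨p.map g, hp.map g, ?_⟩
    rw [eval₂_map]
    have h2 : (algebraMap W N).comp g = (iota N hN).comp (algebraMap k (algebraicClosure k Ω)) := by
      ext1 a
      exact (hι a).symm
    rw [h2, ← hom_eval₂, hpc, map_zero]
  obtain ⟨w, hw⟩ := (IsIntegrallyClosed.isIntegral_iff (R := W)).1 hint
  rw [← hw]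
  exact w.2

omit [CharZero k] in
lemma exists_res (N : IntermediateField F Ω) (hN : proEllField ℓ k F Ω ≤ N)
    (W : ValuationSubring N) (h1 : ∀ c : k, algebraMap F N (algebraMap k F c) ∈ W)
    (h3 : RationalResidue k F W) (z : N) (hz : z ∈ W) : ∃ c, z - iota N hN c ∈ W.nonunits := by
  have hcl : IsAlgClosed Ω := IsAlgClosure.isAlgClosed F
  have halg : Algebra.IsAlgebraic F Ω := IsAlgClosure.isAlgebraic
  have hι : ∀ c : k, iota N hN (algebraMap k (algebraicClosure k Ω) c) =
      algebraMap F N (algebraMap k F c) := by
    intro c
    apply Subtype.ext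
    change algebraMap k Ω c = algebraMap F Ω (algebraMap k F c)
    exact IsScalarTower.algebraMap_apply k F Ω c
  have hacl : IsAlgClosure k (algebraicClosure k Ω) := inferInstance
  have hclK : IsAlgClosed (algebraicClosure k Ω) := hacl.isAlgClosed
  have hzalg : IsAlgebraic F z := by
    have h2 : IsAlgebraic F (z : Ω) := halg.isAlgebraic _
    exact (isAlgebraic_algebraMap_iff (R := F) (S := N) (A := Ω) (algebraMap N Ω).injective).1 h2
  exact Pool.Agent.V11235.SL.residue_alg (iota N hN) hι W (iota_mem N hN W h1) h3 z hzalg hz

/-- there is only one section for every point -/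
lemma unique_section (N : IntermediateField F Ω) (hN : proEllField ℓ k F Ω ≤ N)
    (s s' : Splitting k F Ω (algebraicClosure k Ω) N) (W : ValuationSubring N)
    (h1 : ∀ c : k, algebraMap F N (algebraMap k F c) ∈ W)
    (h3 : RationalResidue k F W) (h4 : InDecomposition s (proEllField ℓ k F Ω) W)
    (h4' : InDecomposition s' (proEllField ℓ k F Ω) W) : AgreeOn (proEllField ℓ k F Ω) s s' := by
  have hcl : IsAlgClosed Ω := IsAlgClosure.isAlgClosed F
  have halg : Algebra.IsAlgebraic F Ω := IsAlgClosure.isAlgebraic
  have hc0 : CharZero Ω := charZero_of_injective_algebraMap (algebraMap k Ω).injective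
  intro σ
  let τ : N ≃ₐ[F] N := (s.toHom σ).trans (s'.toHom σ).symm
  have hτ : ∀ z : N, s'.toHom σ (τ z) = s.toHom σ z := fun z =>
    (s'.toHom σ).apply_symm_apply _
  have hfixc : ∀ c : algebraicClosure k Ω, τ (iota N hN c) = iota N hN c := by
    intro c
    apply (s'.toHom σ).injective
    rw [hτ]
    apply Subtype.ext
    exact (s.compat σ c (iota N hN c) rfl).trans (s'.compat σ c (iota N hN c) rfl).symm
  have hgeo : geomField k F Ω ≤ Pool.Agent.V11235.SL.fixF N τ := by
    refine IntermediateField.adjoin_le_iff.2 fun c hc => ?_
    exact ⟨hN (mem_proEll ⟨c, hc⟩), hfixc ⟨c, hc⟩⟩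
  have hL : ∀ L : {L : IntermediateField (geomField k F Ω) Ω // FiniteProEll ℓ L ∧
      Unramified (k := k) L}, L.1 ≤ IntermediateField.extendScalars hgeo := by
    rintro ⟨L, ⟨hfin, hgal, hcard⟩, hun⟩
    intro z hz
    change z ∈ L at hz
    have hLM : ∀ z ∈ L, z ∈ proEllField ℓ k F Ω := by
      intro z hz
      have h5 : L ≤ maxProEll ℓ k (geomField k F Ω) Ω := by
        refine le_iSup (fun L : {L : IntermediateField (geomField k F Ω) Ω // FiniteProEll ℓ L ∧
          Unramified (k := k) L} => L.1) ⟨L, ⟨hfin, hgal, hcard⟩, hun⟩
      exact h5 hz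
    have hLN : ∀ z ∈ L, z ∈ N := fun z hz => hN (hLM z hz)
    obtain ⟨V, hV⟩ := Pool.Agent.Y157.PS.a_extv N Ω W
    have hVW : ∀ w : N, (w : Ω) ∈ V ↔ w ∈ W := by
      intro w
      rw [← hV]
      rfl
    have hkV : ∀ c : k, algebraMap k Ω c ∈ V := by
      intro c
      have h5 := (hVW (algebraMap F N (algebraMap k F c))).2 (h1 c)
      rw [IsScalarTower.algebraMap_apply k F Ω c]
      exact h5
    refine ⟨hLN z hz, ?_⟩
    refine Pool.Agent.V11235.SL.triv (geomField k F Ω) N L hLN W (iota N hN) (iota_mem N hN W h1)
      (fun c => IntermediateField.subset_adjoin _ _ c.2) τ (fun w hw => (hgeo hw).2)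
      (exists_res N hN W h1 h3) ?_ ?_ ⟨z, hLN z hz⟩ hz
    · intro w hw hw0
      have hw0' : (w : Ω) ≠ 0 := fun h => hw0 (Subtype.ext h)
      obtain ⟨t, ht0, h5, h6⟩ := hun V hkV w hw hw0'
      refine ⟨⟨(t : Ω), hLN _ (L.algebraMap_mem t)⟩, t.2, fun h => ht0 (Subtype.ext ?_),
        (hVW _).1 h5, (hVW _).1 h6⟩
      exact congrArg (fun r : N => (r : Ω)) h
    · intro w hw hw'
      rw [← h4 σ w (hLM _ hw), ← h4' σ (τ w) (hLM _ hw'), hτ]
  intro z hz
  have h5 : (z : Ω) ∈ IntermediateField.extendScalars hgeo := (iSup_le hL) hz
  obtain ⟨h6, h7⟩ := (IntermediateField.mem_extendScalars hgeo).1 h5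
  have h8 : τ z = z := h7
  rw [← hτ z, h8]

lemma rational_residue (L N : IntermediateField F Ω) (hL : L ≤ proEllField ℓ k F Ω)
    (hN : proEllField ℓ k F Ω ≤ N) (s : Splitting k F Ω (algebraicClosure k Ω) N)
    (hs : ∀ σ, ∀ z : N, (z : Ω) ∈ L → s.toHom σ z = z) (W : ValuationSubring N)
    (h1 : ∀ c : k, algebraMap F N (algebraMap k F c) ∈ W)
    (h3 : RationalResidue k F W) (h4 : InDecomposition s (proEllField ℓ k F Ω) W) (z : N)
    (hzL : (z : Ω) ∈ L) (hz : z ∈ W) :
    ∃ c : k, z - algebraMap F N (algebraMap k F c) ∈ W.nonunits := by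
  have hcl : IsAlgClosed Ω := IsAlgClosure.isAlgClosed F
  have halg : Algebra.IsAlgebraic F Ω := IsAlgClosure.isAlgebraic
  have hι : ∀ c : k, iota N hN (algebraMap k (algebraicClosure k Ω) c) =
      algebraMap F N (algebraMap k F c) := by
    intro c
    apply Subtype.ext
    change algebraMap k Ω c = algebraMap F Ω (algebraMap k F c)
    exact IsScalarTower.algebraMap_apply k F Ω c
  have hacl : IsAlgClosure k (algebraicClosure k Ω) := inferInstance
  have hclK : IsAlgClosed (algebraicClosure k Ω) := hacl.isAlgClosed
  -- the algebraic closure is in `W`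
  have hK : ∀ c : algebraicClosure k Ω, iota N hN c ∈ W := by
    intro c
    have hc : IsIntegral k c := (hacl.isAlgebraic.isAlgebraic c).isIntegral
    obtain ⟨p, hp, hpc⟩ := hc
    let g : k →+* W :=
      { toFun := fun a => ⟨algebraMap F N (algebraMap k F a), h1 a⟩
        map_one' := Subtype.ext (by simp)
        map_mul' := fun a b => Subtype.ext (by simp)
        map_zero' := Subtype.ext (by simp)
        map_add' := fun a b => Subtype.ext (by simp) }
    have hint : IsIntegral W (iota N hN c) := by
      refine ⟨p.map g, hp.map g, ?_⟩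
      rw [eval₂_map]
      have h2 : (algebraMap W N).comp g = (iota N hN).comp (algebraMap k (algebraicClosure k Ω)) := by
        ext1 a
        exact (hι a).symm
      rw [h2, ← hom_eval₂, hpc, map_zero]
    obtain ⟨w, hw⟩ := (IsIntegrallyClosed.isIntegral_iff (R := W)).1 hint
    rw [← hw]
    exact w.2
  have hzalg : IsAlgebraic F z := by
    have h2 : IsAlgebraic F (z : Ω) := halg.isAlgebraic _
    exact (isAlgebraic_algebraMap_iff (R := F) (S := N) (A := Ω) (algebraMap N Ω).injective).1 h2
  obtain ⟨c, hc⟩ := Pool.Agent.V11235.SL.residue_alg (iota N hN) hι W hK h3 z hzalg hz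
  have hunit : ∀ r : algebraicClosure k Ω, r ≠ 0 → W.valuation (iota N hN r) = 1 := by
    intro r hr
    have h1 := (ValuationSubring.valuation_le_one_iff W _).2 (hK r)
    have h2 := (ValuationSubring.valuation_le_one_iff W _).2 (hK r⁻¹)
    rw [map_inv₀, map_inv₀] at h2
    have h3 : W.valuation (iota N hN r) ≠ 0 :=
      (Valuation.ne_zero_iff _).2 ((_root_.map_ne_zero _).2 hr)
    refine le_antisymm h1 ?_
    exact (inv_le_one₀ (zero_lt_iff.2 h3)).1 h2
  -- `c` is fixed
  have hfix : ∀ σ : algebraicClosure k Ω ≃ₐ[k] algebraicClosure k Ω, σ c = c := by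
    intro σ
    have hw : ((z - iota N hN c : N) : Ω) ∈ proEllField ℓ k F Ω := by
      refine sub_mem (hL hzL) (mem_proEll c)
    have h5 : s.toHom σ (z - iota N hN c) ∈ W.nonunits := by
      rw [ValuationSubring.mem_nonunits_iff_or] at hc ⊢
      rcases hc with h | h
      · left
        rw [h, map_zero]
      · right
        rw [← map_inv₀]
        intro h6
        apply h
        refine (h4 σ _ ?_).1 h6
        exact inv_mem hw
    have h6 : s.toHom σ (iota N hN c) = iota N hN (σ c) := by
      apply Subtype.ext
      exact s.compat σ c (iota N hN c) rfl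
    rw [map_sub, hs σ z hzL, h6] at h5
    by_contra hne
    have h7 : W.valuation (iota N hN (σ c - c)) = 1 := hunit _ (sub_ne_zero.2 hne)
    have h8 : iota N hN (σ c - c) = (z - iota N hN c) - (z - iota N hN (σ c)) := by
      rw [map_sub]
      ring
    rw [h8] at h7
    have h9 := Valuation.map_sub W.valuation (z - iota N hN c) (z - iota N hN (σ c))
    rw [h7] at h9
    exact absurd h9 (not_le.2 (max_lt ((ValuationSubring.mem_nonunits_iff W).1 hc)
      ((ValuationSubring.mem_nonunits_iff W).1 h5)))
  have hgal : IsGalois k (algebraicClosure k Ω) := by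
    have hn : Normal k (algebraicClosure k Ω) := IsAlgClosure.normal k _
    exact ⟨⟩
  obtain ⟨a, ha⟩ := IntermediateField.mem_bot.1 ((InfiniteGalois.mem_bot_iff_fixed c).2 hfix)
  refine ⟨a, ?_⟩
  rw [← hι, ha]
  exact hc

end proof

/-- Let `A` be a complete discrete valuation ring with finite residue field and with field of
fractions `k` of characteristic zero, and let `ℓ` be a prime number invertible in `A`.  Let `g ∈ k[X]` be
a polynomial such that the zeros `e` of `g(x^ℓ)` in `k̄` have unit quotients `e / e'` and
`(e - e') / e'`, `e ≠ e'`, and such that the denominator of their valuation is divisible by `ℓ`.  Let `F` be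
the function field of a covering `C` of the projective line over `k` whose monodromy group over `k̄` is
an `ℓ`-group and which is uniformly ramified of index `ℓ` above the zeros of `g(x^ℓ)` and, if `Ends`
holds, above `0` and `∞`, and unramified elsewhere, with at least three branch points.  Let `L` be an
extension of `F` that is contained in the field `M` of the geometrically pro-`ℓ` fundamental group of
`C`, for instance the function field of a geometrically connected finite étale covering `Y` of `C` with
a geometric monodromy group of `ℓ`-power order.  Then every section of `Gal(N/L) → G_k`, `N ⊇ M`, for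
instance of the fundamental group of `Y`, of its open subcurves, and of the geometrically pro-`ℓ`
fundamental group of `Y`, induces on `M` the section of exactly one point of `Y` above `x = 0` or
`x = ∞`, and this is a `k`-rational point of `Y`; it is not induced by a point above a zero of `g(x^ℓ)`;
two sections with the same prolongation `W` of such a point to `M` agree on `M`. -/
theorem result (A k : Type) [CommRing A] [IsDomain A] [IsDiscreteValuationRing A]
    [IsAdicComplete (IsLocalRing.maximalIdeal A) A] [Finite (IsLocalRing.ResidueField A)]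
    [Field k] [CharZero k] [Algebra A k] [IsFractionRing A k] (ℓ : ℕ) [Fact ℓ.Prime]
    (hℓ : IsUnit (ℓ : A)) (F Ω : Type) [Field F] [Field Ω] [Algebra k F] [Algebra F Ω] [Algebra k Ω]
    [IsScalarTower k F Ω] [IsAlgClosure F Ω] (g : k[X]) (Ends : Prop) (x : F)
    (hC : UniformCover ℓ k F Ω (branchPolynomial (expand k ℓ g) Ends) Ends x)
    (h3 : 3 ≤ branchNumber (branchPolynomial (expand k ℓ g) Ends) Ends)
    (hcr : UnitRatios A (algebraicClosure k Ω) (expand k ℓ g))
    (hval : FractionalValuation A (algebraicClosure k Ω) ℓ (expand k ℓ g)) :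
    SectionsOfCoverings ℓ k F Ω (expand k ℓ g) x := by
  obtain ⟨hx, hfin, hsep, ⟨E, ⟨hE1, hE2, hE3⟩, hFE⟩, hram⟩ := hC
  obtain ⟨ϖ, n, α, hϖ, hα, hval⟩ := hval
  intro L N hL hN s hsL
  have hcl : IsAlgClosed Ω := IsAlgClosure.isAlgClosed F
  have halg : Algebra.IsAlgebraic F Ω := IsAlgClosure.isAlgebraic
  have hN' := hN
  rw [proEll_eq] at hN'
  obtain ⟨h, hh⟩ : ∃ h, h = branchPolynomial (expand k ℓ g) Ends := ⟨_, rfl⟩
  rw [← hh] at hram h3 hsep
  have hh' : (Ends ∧ h = X * expand k ℓ g) ∨ (¬ Ends ∧ h = expand k ℓ g) := by
    unfold branchPolynomial at hh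
    by_cases hE : Ends
    · rw [if_pos hE] at hh
      exact Or.inl ⟨hE, hh⟩
    · rw [if_neg hE] at hh
      exact Or.inr ⟨hE, hh⟩
  have hℓp : ℓ.Prime := Fact.out
  have hdeg : (expand k ℓ g).natDegree = ℓ * g.natDegree := by
    rw [natDegree_expand, mul_comm]
  have hf0 : expand k ℓ g ≠ 0 := by
    rintro h1
    rw [h1, mul_zero] at hh'
    rcases hh' with ⟨-, h2⟩ | ⟨-, h2⟩
    · exact hsep.ne_zero h2
    · exact hsep.ne_zero h2
  have hroot : ∀ e : algebraicClosure k Ω, aeval e (expand k ℓ g) = 0 →
      e ∈ (expand k ℓ g).rootSet (algebraicClosure k Ω) :=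
    fun e he => mem_rootSet.2 ⟨hf0, he⟩
  have hk : ∀ W : ValuationSubring Ω, (∀ c : k, algebraMap k Ω c ∈ W) →
      ∀ c : k, algebraMap F Ω (algebraMap k F c) ∈ W := fun W h c => by
    rw [← IsScalarTower.algebraMap_apply]
    exact h c
  have hidx : ∀ W : ValuationSubring Ω, (∀ c : k, algebraMap k Ω c ∈ W) → W ≠ ⊤ →
      ((algebraMap F Ω (aeval x h) ∈ W.nonunits ∨ (Ends ∧ (algebraMap F Ω x)⁻¹ ∈ W.nonunits)) →
        (Pool.Agent.H93S.valGrp W (IntermediateField.adjoin (algebraicClosure k Ω)
          {algebraMap F Ω x}).toSubfield).relIndex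
            (Pool.Agent.H93S.valGrp W (Pool.Agent.Y157.PS.geomF k F Ω).toSubfield) = ℓ) ∧
      (¬ (algebraMap F Ω (aeval x h) ∈ W.nonunits ∨ (Ends ∧ (algebraMap F Ω x)⁻¹ ∈ W.nonunits)) →
        (Pool.Agent.H93S.valGrp W (IntermediateField.adjoin (algebraicClosure k Ω)
          {algebraMap F Ω x}).toSubfield).relIndex
            (Pool.Agent.H93S.valGrp W (Pool.Agent.Y157.PS.geomF k F Ω).toSubfield) = 1) := by
    intro W hW hWt
    have h1 : Above k (aeval x h) x Ends W ↔ (algebraMap F Ω (aeval x h) ∈ W.nonunits ∨
        (Ends ∧ (algebraMap F Ω x)⁻¹ ∈ W.nonunits)) := by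
      unfold Above
      rw [map_inv₀]
      exact ⟨fun h => h.2, fun h => ⟨hk W hW, h⟩⟩
    rw [← h1]
    exact ⟨fun h => (hram W hWt).1 h, fun h => (hram W hWt).2 hW h⟩
  obtain ⟨W, ⟨⟨h1, h2, h3'⟩, h4⟩, hun⟩ :=
    Pool.Agent.H93S.padic4 hℓ g Ends (expand k ℓ g) h rfl hh' hsep
      (fun hE => by
        unfold branchNumber at h3
        rw [if_pos hE] at h3
        rcases hh' with ⟨-, h5⟩ | ⟨h5, -⟩
        · by_contra h6
          have h7 : g.natDegree = 0 := by omega
          have h8 := natDegree_mul_le (p := (X : k[X])) (q := expand k ℓ g)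
          rw [← h5, hdeg, h7, natDegree_X] at h8
          omega
        · exact absurd hE h5)
      (fun hE => by
        unfold branchNumber at h3
        rw [if_neg hE, add_zero] at h3
        rcases hh' with ⟨h5, -⟩ | ⟨-, h5⟩
        · exact absurd h5 hE
        · rw [h5, hdeg] at h3
          exact h3)
      (fun e e' he he' hne => hcr e (hroot e he) e' (hroot e' he') hne) hϖ hα
      (fun e he => hval e (hroot e he))
      x hx (Algebra.IsAlgebraic.of_finite _ _) E hE1 hE2 hE3 hFE hidx
      N hN' s.toHom s.cont (fun σ c z hz => s.compat σ c z hz)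
  have h4' : InDecomposition s (proEllField ℓ k F Ω) W := by
    rw [proEll_eq]
    exact h4
  refine ⟨W, ⟨h1, h2⟩, h3', ?_, h4',
    fun s' hs' => unique_section N hN s s' W h1 h3' h4' hs', ?_⟩
  · intro z hzL hz
    exact rational_residue L N hL hN s hsL W h1 h3' h4' z hzL hz
  · rw [proEll_eq]
    intro W' b1 b2
    exact hun W' b1.1 b1.2 b2

end Pool.Agent.Results.MP_c385f6_ag.RotationsOfUniformCovers
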